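import Pool.Agent.W809.ZQ.Stm
import Pool.Agent.Helper472.Lat_PW
import Pool.Agent.Helper472.Lat_DIR

set_option autoImplicit false

open Set Filter Topology

namespace Pool.Agent.W804.ZQ

open Pool.Agent.W809.ZQ Pool.LatH472

theorem mem_reindex {ι : Type} [Fintype ι] [DecidableEq ι] {n : ℕ} (e : ι ≃ Fin n)
    (A : Matrix ι ι ℂ) (hA : A ∈ Matrix.unitaryGroup ι ℂ) :
    A.submatrix e.symm e.symm ∈ Matrix.unitaryGroup (Fin n) ℂ := by
  rw [Matrix.mem_unitaryGroup_iff] at hA ⊢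
  rw [Matrix.star_eq_conjTranspose, Matrix.conjTranspose_submatrix,
    Matrix.submatrix_mul_equiv, ← Matrix.star_eq_conjTranspose, hA, Matrix.submatrix_one_equiv]

theorem repTop {K : Type} [Group K] [TopologicalSpace K] : IsRepKer (⊤ : Subgroup K) := by
  refine ⟨Fin 0, inferInstance, inferInstance, 1, ?_, ?_⟩
  · exact continuous_const
  · exact MonoidHom.ker_one

theorem emb : S_EMB := by
  intro K _ _ _ _ _ ⟨O, hO, hsub⟩
  have hPW : StPW := PW
  have hDIR : StDIR := DIR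
  obtain ⟨O', hO'O, hO'o, h1O'⟩ := mem_nhds_iff.1 hO
  have hcpt : IsCompact (O'ᶜ) := hO'o.isClosed_compl.isCompact
  let I : Type := {N : Subgroup K // IsRepKer N}
  haveI : Nonempty I := ⟨⟨⊤, repTop⟩⟩
  have hcl : ∀ N : I, IsClosed ((N.1 : Subgroup K) : Set K) := by
    rintro ⟨N, ι, _, _, ρ, hρ, rfl⟩
    have h2 : ((ρ.ker : Subgroup K) : Set K) = ρ ⁻¹' {1} := by
      ext x
      simp [MonoidHom.mem_ker]
    show IsClosed ((ρ.ker : Subgroup K) : Set K)
    rw [h2]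
    exact isClosed_singleton.preimage hρ
  have hempty : (O'ᶜ ∩ ⋂ N : I, ((N.1 : Subgroup K) : Set K)) = ∅ := by
    rw [Set.eq_empty_iff_forall_notMem]
    rintro x ⟨hx, hxI⟩
    have hx1 : x ≠ 1 := fun h => hx (h ▸ h1O')
    obtain ⟨ι, i1, i2, ρ, hρ, hρx⟩ := hPW K x hx1
    have h3 := Set.mem_iInter.1 hxI ⟨ρ.ker, ι, i1, i2, ρ, hρ, rfl⟩
    exact hρx h3
  have hdir : Directed (fun s t : Set K => s ⊇ t) (fun N : I => ((N.1 : Subgroup K) : Set K)) := by
    intro N N'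
    refine ⟨⟨N.1 ⊓ N'.1, hDIR K N.1 N'.1 N.2 N'.2⟩, ?_, ?_⟩
    · exact fun x hx => hx.1
    · exact fun x hx => hx.2
  obtain ⟨N, hN⟩ := hcpt.elim_directed_family_closed _ hcl hempty hdir
  have hNO : ((N.1 : Subgroup K) : Set K) ⊆ O := by
    intro x hx
    apply hO'O
    by_contra hxO
    have h4 : x ∈ (O'ᶜ ∩ ((N.1 : Subgroup K) : Set K)) := ⟨hxO, hx⟩
    rw [hN] at h4
    exact h4
  have hbot := hsub N.1 hNO
  clear hNO hN
  obtain ⟨N, ι, i1, i2, ρ, hρ, rfl⟩ := N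
  change ρ.ker = ⊥ at hbot
  let e : ι ≃ Fin (Fintype.card ι) := Fintype.equivFin ι
  let f : K →* U (Fintype.card ι) :=
    { toFun := fun k => ⟨((ρ k : Matrix.unitaryGroup ι ℂ) : Matrix ι ι ℂ).submatrix e.symm e.symm,
        mem_reindex e _ (ρ k).2⟩
      map_one' := by
        apply Subtype.ext
        simp
      map_mul' := by
        intro a b
        apply Subtype.ext
        simp [Matrix.submatrix_mul_equiv] }
  refine ⟨Fintype.card ι, f, ?_, ?_⟩
  · apply Continuous.subtype_mk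
    exact (continuous_subtype_val.comp hρ).matrix_submatrix _ _
  · rw [← MonoidHom.ker_eq_bot_iff]
    rw [eq_bot_iff]
    intro x hx
    rw [← hbot, MonoidHom.mem_ker]
    rw [MonoidHom.mem_ker] at hx
    have h5 := congrArg Subtype.val hx
    have h6 : ((ρ x : Matrix.unitaryGroup ι ℂ) : Matrix ι ι ℂ).submatrix e.symm e.symm = 1 := h5
    apply Subtype.ext
    have h7 := congrArg (fun A : Matrix (Fin (Fintype.card ι)) (Fin (Fintype.card ι)) ℂ =>
      A.submatrix e e) h6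
    simpa using h7

end Pool.Agent.W804.ZQ
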